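import Pool.Agent.ETSP.Main

/-!
# Euclidean TSP with integer bounds, in binary and on small grids
-/

namespace Pool.Agent.NPC.Tour

open Pool.Agent.NPC Pool.Agent.ETSP

/-- Euclidean TSP: an instance is a list of points of `ℤ²` and an integer `L` (written in binary);
some ordering `l` of the points is a closed tour of Euclidean length at most `L`. -/
def ETSPZ (q : List (ℤ × ℤ) × ℤ) : Prop := ∃ l : List (ℤ × ℤ), l.Perm q.1 ∧ tl eucl l ≤ q.2

/-- Sums of Euclidean lengths: an instance is a list of vectors of `ℤ²` and an integer `L` (written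
in binary); the sum of the Euclidean lengths of the vectors is at most `L`. -/
def LENZ (q : List (ℤ × ℤ) × ℤ) : Prop := (q.1.map nrm).sum ≤ q.2

/-- The coordinates are at most `n` in absolute value. -/
def Small (n : ℕ) (P : List (ℤ × ℤ)) : Prop := ∀ p ∈ P, p.1.natAbs ≤ n ∧ p.2.natAbs ≤ n

/-- Euclidean TSP with coordinates bounded in unary: the first component of an instance is a string
whose length bounds the coordinates of the points. -/
def ETSPU (q : List Unit × (List (ℤ × ℤ) × ℤ)) : Prop := Small q.1.length q.2.1 ∧ ETSPZ q.2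

/-- Sums of Euclidean lengths of vectors with coordinates bounded in unary. -/
def LENU (q : List Unit × (List (ℤ × ℤ) × ℤ)) : Prop := Small q.1.length q.2.1 ∧ LENZ q.2

/-- The reduction. -/
def redZ (q : List (ℤ × ℤ) × ℤ) : List (ℤ × ℤ) × ℤ := ((zono (edg q.1)).dedup, 2 * q.2)

theorem redZ_iff (q : List (ℤ × ℤ) × ℤ) : LENZ q ↔ ETSPZ (redZ q) := by
  unfold LENZ ETSPZ redZ
  have h1 := tour_iff (L := edg q.1) up_edg (pairwise_edg q.1) q.2
  rw [sum_edg] at h1
  rw [← h1]
  have h2 : (((2 * q.2 : ℤ)) : ℝ) = 2 * (q.2 : ℝ) := by push_cast; ring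
  simp only [h2]

theorem poly_redZ : Poly redZ :=
  Poly.pair (H612.poly_dedup (poly_zono (poly_edg (Poly.fst Poly.id))))
    (Poly.imul (Poly.const 2) (Poly.snd Poly.id))

theorem lenZ_le : Reduces (lang LENZ) (lang ETSPZ) := reduces_lang poly_redZ redZ_iff

/-- The certificate is an ordering of the points. -/
def goodZ (z : (List (ℤ × ℤ) × ℤ) × List (ℤ × ℤ)) : Bool :=
  decide (z.2.length = z.1.1.length) &&
    (z.2 ++ z.1.1).all fun p => decide (z.2.count p = z.1.1.count p)

theorem goodZ_iff (z : (List (ℤ × ℤ) × ℤ) × List (ℤ × ℤ)) :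
    goodZ z = true ↔ z.2.Perm z.1.1 := by
  unfold goodZ
  simp only [Bool.and_eq_true, decide_eq_true_eq, List.all_eq_true]
  constructor
  · rintro ⟨-, h⟩
    refine List.perm_iff_count.2 fun p => ?_
    by_cases hp : p ∈ z.2 ++ z.1.1
    · exact h p hp
    · rw [List.mem_append, not_or] at hp
      rw [List.count_eq_zero_of_not_mem hp.1, List.count_eq_zero_of_not_mem hp.2]
  · intro h
    exact ⟨h.length_eq, fun p _ => h.count_eq p⟩

theorem poly_goodZ : Poly goodZ := by
  have h1 : Poly (fun z : (List (ℤ × ℤ) × ℤ) × List (ℤ × ℤ) => z.1.1) :=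
    Poly.fst (Poly.fst Poly.id)
  have h2 : Poly (fun z : (List (ℤ × ℤ) × ℤ) × List (ℤ × ℤ) => z.2) := Poly.snd Poly.id
  have c1 : Poly (fun x : ((List (ℤ × ℤ) × ℤ) × List (ℤ × ℤ)) × (ℤ × ℤ) => x.1.1.1.count x.2) :=
    (H612.poly_count (h1.comp (Poly.fst Poly.id)) (Poly.snd Poly.id)).congr fun a => by
      congr
      exact lawful_beq_subsingleton _ _
  have c2 : Poly (fun x : ((List (ℤ × ℤ) × ℤ) × List (ℤ × ℤ)) × (ℤ × ℤ) => x.1.2.count x.2) :=
    (H612.poly_count (h2.comp (Poly.fst Poly.id)) (Poly.snd Poly.id)).congr fun a => by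
      congr
      exact lawful_beq_subsingleton _ _
  exact Poly.and (Poly.decide_eq (Poly.length h2) (Poly.length h1))
    (Poly.all (p := fun z (p : ℤ × ℤ) => decide (z.2.count p = z.1.1.count p))
      (Poly.append h2 h1) (Poly.decide_eq c2 c1))

theorem etspZ_iff (q : List (ℤ × ℤ) × ℤ) :
    ETSPZ q ↔ ∃ l, goodZ (q, l) = true ∧ LENZ (steps l, q.2) := by
  unfold ETSPZ LENZ
  constructor
  · rintro ⟨l, h3, h4⟩
    exact ⟨l, (goodZ_iff _).2 h3, by rw [sum_steps]; exact h4⟩
  · rintro ⟨l, h1, h3⟩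
    rw [goodZ_iff] at h1
    rw [sum_steps] at h3
    exact ⟨l, h1, h3⟩

theorem etspZ_inNP (h : InNPP LENZ) : InNPP ETSPZ := by
  have h1 : InNPP (fun z : (List (ℤ × ℤ) × ℤ) × List (ℤ × ℤ) =>
      goodZ z = true ∧ LENZ (steps z.2, z.1.2)) :=
    Med.InNPP.and (Med.inNPP_of_test poly_goodZ fun _ => Iff.rfl)
      (Med.InNPP.comp h (Poly.pair (poly_steps (Poly.snd Poly.id))
        (Poly.snd (Poly.fst Poly.id))))
  have h2 := Med.InNPP.exists h1 Polynomial.X (fun a c hc => by
    refine ⟨c, ?_, hc⟩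
    have h3 : sz c = sz a.1 := sz_perm ((goodZ_iff _).1 hc.1)
    rw [Polynomial.eval_X, h3]
    have h4 : sz a = sz (a.1, a.2) := rfl
    rw [h4, sz_pair]
    omega)
  have h3 : (fun a => ∃ c, goodZ (a, c) = true ∧ LENZ (steps c, a.2)) = ETSPZ :=
    funext fun q => propext (etspZ_iff q).symm
  rw [← h3]
  exact h2

/-! ### Small coordinates -/

theorem Small.mono {m n : ℕ} (h : m ≤ n) {P : List (ℤ × ℤ)} (hP : Small m P) : Small n P :=
  fun p hp => ⟨(hP p hp).1.trans h, (hP p hp).2.trans h⟩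

theorem small_sum {n : ℕ} {P : List (ℤ × ℤ)} (hP : Small n P) :
    P.sum.1.natAbs ≤ n * P.length ∧ P.sum.2.natAbs ≤ n * P.length := by
  induction P with
  | nil => simp
  | cons v P ih =>
    have h1 := ih fun p hp => hP p (List.mem_cons_of_mem _ hp)
    have h2 := hP v (by simp)
    rw [List.sum_cons, List.length_cons, Prod.fst_add, Prod.snd_add, Nat.mul_succ]
    have h3 := Int.natAbs_add_le v.1 P.sum.1
    have h4 := Int.natAbs_add_le v.2 P.sum.2
    omega

theorem small_nml {n : ℕ} {v : ℤ × ℤ} (h : v.1.natAbs ≤ n ∧ v.2.natAbs ≤ n) :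
    (nml v).1.natAbs ≤ n ∧ (nml v).2.natAbs ≤ n := by
  unfold nml
  split_ifs
  · exact h
  · rw [Prod.fst_neg, Prod.snd_neg, Int.natAbs_neg, Int.natAbs_neg]
    exact h

theorem small_edg {n : ℕ} {P : List (ℤ × ℤ)} (h : Small n P) : Small n (edg P) := by
  intro u hu
  obtain ⟨v, hv, rfl⟩ := List.mem_map.1 ((perm_srt _).mem_iff.1 hu)
  exact small_nml (h v (List.mem_filter.1 hv).1)

theorem length_edg (P : List (ℤ × ℤ)) : (edg P).length ≤ P.length := by
  unfold edg
  rw [(perm_srt _).length_eq, List.length_map]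
  exact List.length_filter_le _ _

theorem mem_zono {L : List (ℤ × ℤ)} {p : ℤ × ℤ} (hp : p ∈ zono L) :
    ∃ A : List (ℤ × ℤ), A.Sublist L ∧ p = A.sum := by
  rw [zono, List.mem_append, run_eq, run_eq] at hp
  rcases hp with hp | hp
  · obtain ⟨j, -, rfl⟩ := List.mem_map.1 hp
    exact ⟨L.take j, List.take_sublist _ _, by rw [zero_add]⟩
  · obtain ⟨j, -, rfl⟩ := List.mem_map.1 hp
    refine ⟨L.drop j, List.drop_sublist _ _, ?_⟩
    rw [← List.map_take, sum_map_neg]
    have := List.sum_take_add_sum_drop L j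
    rw [← this, add_neg_cancel_comm]

theorem small_zono {n : ℕ} {L : List (ℤ × ℤ)} (h : Small n L) : Small (n * L.length) (zono L) := by
  intro p hp
  obtain ⟨A, hA, rfl⟩ := mem_zono hp
  have h1 := small_sum (n := n) (P := A) fun v hv => h v (hA.subset hv)
  have h2 := Nat.mul_le_mul_left n hA.length_le
  exact ⟨h1.1.trans h2, h1.2.trans h2⟩

instance (n : ℕ) (P : List (ℤ × ℤ)) : Decidable (Small n P) := by unfold Small; infer_instance

/-- The reduction for small coordinates. -/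
def redU (q : List Unit × (List (ℤ × ℤ) × ℤ)) : List Unit × (List (ℤ × ℤ) × ℤ) :=
  if Small q.1.length q.2.1 then (q.1.flatMap (fun _ => q.2.1.map fun _ => ()), redZ q.2)
  else ([], ([(1, 0)], 0))

theorem redU_iff (q : List Unit × (List (ℤ × ℤ) × ℤ)) : LENU q ↔ ETSPU (redU q) := by
  unfold LENU ETSPU redU
  by_cases h : Small q.1.length q.2.1
  · rw [if_pos h]
    simp only [h, true_and]
    rw [redZ_iff, and_iff_right]
    have h1 := small_zono (small_edg h)
    have h2 : (q.1.flatMap (fun _ => q.2.1.map fun _ => ())).length =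
        q.1.length * q.2.1.length := by
      rw [List.length_flatMap]
      simp
    rw [h2]
    exact (h1.mono (Nat.mul_le_mul_left _ (length_edg _))) |> fun h3 p hp =>
      h3 p (List.mem_dedup.1 hp)
  · rw [if_neg h]
    refine ⟨fun h' => absurd h'.1 h, fun h' => ?_⟩
    have := (h'.1 (1, 0) (by simp)).1
    simp at this

theorem poly_small {α : Type} [TEnc α] {n : α → ℕ} {P : α → List (ℤ × ℤ)} (hn : Poly n)
    (hP : Poly P) : Poly (fun a => decide (Small (n a) (P a))) := by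
  have h1 : Poly (fun x : α × (ℤ × ℤ) => decide (x.2.1.natAbs ≤ n x.1)) :=
    Poly.decide_le (Poly.natAbs (Poly.fst (Poly.snd Poly.id))) (hn.comp (Poly.fst Poly.id))
  have h2 : Poly (fun x : α × (ℤ × ℤ) => decide (x.2.2.natAbs ≤ n x.1)) :=
    Poly.decide_le (Poly.natAbs (Poly.snd (Poly.snd Poly.id))) (hn.comp (Poly.fst Poly.id))
  refine (Poly.all (p := fun a (p : ℤ × ℤ) => decide (p.1.natAbs ≤ n a) &&
    decide (p.2.natAbs ≤ n a)) hP (Poly.and h1 h2)).congr fun a => ?_
  rw [Bool.eq_iff_iff]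
  simp only [List.all_eq_true, Bool.and_eq_true, decide_eq_true_eq]
  exact Iff.rfl

theorem poly_redU : Poly redU := by
  have h1 : Poly (fun q : List Unit × (List (ℤ × ℤ) × ℤ) => q.1) := Poly.fst Poly.id
  have h2 : Poly (fun q : List Unit × (List (ℤ × ℤ) × ℤ) => q.2.1) := Poly.fst (Poly.snd Poly.id)
  refine Poly.ite (poly_small (Poly.length h1) h2) (Poly.pair ?_ (poly_redZ.comp
    (Poly.snd Poly.id))) (Poly.const _)
  exact Poly.flatMap (F := fun q (_ : Unit) => q.2.1.map fun _ => ()) h1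
    (Poly.map (F := fun _ _ => ()) (h2.comp (Poly.fst Poly.id)) (Poly.const ()))

theorem lenU_le : Reduces (lang LENU) (lang ETSPU) := reduces_lang poly_redU redU_iff

theorem small_steps {n : ℕ} {l : List (ℤ × ℤ)} (h : Small n l) : Small (n + n) (steps l) := by
  intro p hp
  obtain ⟨⟨a, b⟩, hab, rfl⟩ := List.mem_map.1 hp
  have h1 := List.of_mem_zip hab
  have ha := h a h1.1
  have hb : b.1.natAbs ≤ n ∧ b.2.natAbs ≤ n := by
    rcases List.mem_append.1 h1.2 with h2 | h2
    · exact h b (List.mem_of_mem_tail h2)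
    · exact h b (List.mem_of_mem_take h2)
  simp only [Prod.fst_add, Prod.snd_add, Prod.fst_neg, Prod.snd_neg]
  omega

theorem etspU_iff (q : List Unit × (List (ℤ × ℤ) × ℤ)) : ETSPU q ↔ ∃ l,
    (decide (Small q.1.length q.2.1) && goodZ (q.2, l)) = true ∧
      LENU (q.1 ++ q.1, (steps l, q.2.2)) := by
  unfold ETSPU LENU
  rw [etspZ_iff]
  simp only [Bool.and_eq_true, decide_eq_true_eq, List.length_append]
  constructor
  · rintro ⟨h1, l, h2, h3⟩
    refine ⟨l, ⟨h1, h2⟩, small_steps fun p hp => h1 p ?_, h3⟩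
    exact ((goodZ_iff _).1 h2).mem_iff.1 hp
  · rintro ⟨l, ⟨h1, h2⟩, -, h3⟩
    exact ⟨h1, l, h2, h3⟩

theorem etspU_inNP (h : InNPP LENU) : InNPP ETSPU := by
  have hd : Poly (fun z : (List Unit × (List (ℤ × ℤ) × ℤ)) × List (ℤ × ℤ) =>
      (decide (Small z.1.1.length z.1.2.1) && goodZ (z.1.2, z.2))) := by
    refine Poly.and (poly_small (Poly.length (Poly.fst (Poly.fst Poly.id)))
      (Poly.fst (Poly.snd (Poly.fst Poly.id)))) ?_
    exact poly_goodZ.comp (Poly.pair (Poly.snd (Poly.fst Poly.id)) (Poly.snd Poly.id))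
  have h1 : InNPP (fun z : (List Unit × (List (ℤ × ℤ) × ℤ)) × List (ℤ × ℤ) =>
      (decide (Small z.1.1.length z.1.2.1) && goodZ (z.1.2, z.2)) = true ∧
        LENU (z.1.1 ++ z.1.1, (steps z.2, z.1.2.2))) :=
    Med.InNPP.and (Med.inNPP_of_test hd fun _ => Iff.rfl)
      (Med.InNPP.comp h (Poly.pair (Poly.append (Poly.fst (Poly.fst Poly.id))
        (Poly.fst (Poly.fst Poly.id))) (Poly.pair (poly_steps (Poly.snd Poly.id))
        (Poly.snd (Poly.snd (Poly.fst Poly.id))))))
  have h2 := Med.InNPP.exists h1 Polynomial.X (fun a c hc => by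
    refine ⟨c, ?_, hc⟩
    have h5 := hc.1
    rw [Bool.and_eq_true] at h5
    have h3 : sz c = sz a.2.1 := sz_perm ((goodZ_iff _).1 h5.2)
    rw [Polynomial.eval_X, h3]
    have h4 : sz a = sz (a.1, (a.2.1, a.2.2)) := rfl
    rw [h4, sz_pair, sz_pair]
    omega)
  have h3 : (fun a : List Unit × (List (ℤ × ℤ) × ℤ) => ∃ c,
      (decide (Small a.1.length a.2.1) && goodZ (a.2, c)) = true ∧
        LENU (a.1 ++ a.1, (steps c, a.2.2))) = ETSPU :=
    funext fun q => propext (etspU_iff q).symm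
  rw [← h3]
  exact h2

theorem etspZ_inNP_iff : InNP (lang ETSPZ) ↔ InNP (lang LENZ) :=
  ⟨fun h => H622R2.InNP.of_reduces lenZ_le h, etspZ_inNP⟩

theorem etspU_inNP_iff : InNP (lang ETSPU) ↔ InNP (lang LENU) :=
  ⟨fun h => H622R2.InNP.of_reduces lenU_le h, etspU_inNP⟩

end Pool.Agent.NPC.Tour
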